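import Pool.Agent.Q265.Toms

set_option autoImplicit false

/-!
# MP_94066b_nt: contracted modular numerical semigroups admit Toms decompositions

For all nonnegative integers `a, b, c` with `b ≠ 0` the numerical semigroup `T(a,b,c) ∪ {0}` admits
a Toms decomposition.
-/

namespace Pool.Agent.Results.MP_94066b_nt.AllTomsDecomposable

/-- The set `T(a,b,c)` of all integers `x` with `a x mod b ≤ x - c`. -/
def T (a b c : ℕ) : Set ℤ := {x | ((a : ℤ) * x) % (b : ℤ) ≤ x - c}

/-- A set `S` of natural numbers admits a Toms decomposition: there are positive integers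
`L, q_1, ..., q_n, m_1, ..., m_n` (`n ≥ 1`) with `gcd(q_i, m_i) = gcd(L, m_i) = gcd(L, q_i) = 1` for
every `i` and `S = {x : L x ∈ ⟨q_i, m_i⟩ for every i}`. -/
def HasTomsDecomposition (S : Set ℕ) : Prop :=
  ∃ (L n : ℕ) (q m : Fin n → ℕ), 0 < L ∧ 0 < n ∧
    (∀ i, 0 < q i ∧ 0 < m i ∧ Nat.gcd (q i) (m i) = 1 ∧ Nat.gcd L (m i) = 1 ∧
      Nat.gcd L (q i) = 1) ∧
    S = {x | ∀ i, L * x ∈ AddSubmonoid.closure ({q i, m i} : Set ℕ)}

/-- The general result for `{x : a x mod b + d ≤ c x} ∪ {0}` with `b, c > 0`. -/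
theorem general (a b c d : ℕ) (hb : 0 < b) (hc : 0 < c) :
    HasTomsDecomposition ({x : ℕ | (a * x) % b + d ≤ c * x} ∪ {0}) := by
  -- reduce `a` modulo `b`
  have hred : ∀ x : ℕ, (a * x) % b = ((a % b) * x) % b := fun x => by
    rw [Nat.mod_mul_mod]
  obtain ⟨a', ha'⟩ : ∃ a', a' = a % b := ⟨_, rfl⟩
  have hab : a' < b := by rw [ha']; exact Nat.mod_lt _ hb
  have hS : ({x : ℕ | (a * x) % b + d ≤ c * x} ∪ {0} : Set ℕ) =
      {x : ℕ | (a' * x) % b + d ≤ c * x} ∪ {0} := by
    ext x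
    simp only [Set.mem_union, Set.mem_ofPred_eq, hred x, ha']
  rw [hS]
  obtain ⟨q, hq1, hq⟩ := Nat.exists_infinite_primes (2 * (b + d) ^ 2 + 2 * (b + d))
  obtain ⟨L, hL1, hL⟩ := Nat.exists_infinite_primes (2 * q ^ 2)
  have hLq : L ≠ q := by
    intro h
    rw [h] at hL1
    have := hq.two_le
    nlinarith
  have key : ∀ x : ℕ, x < b + d → ∃ q' m : ℕ, 0 < q' ∧ 0 < m ∧ Nat.gcd q' m = 1 ∧
      Nat.gcd L m = 1 ∧ Nat.gcd L q' = 1 ∧
      (∀ g ∈ ({x : ℕ | (a' * x) % b + d ≤ c * x} ∪ {0} : Set ℕ),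
        L * g ∈ AddSubmonoid.closure ({q', m} : Set ℕ)) ∧
      (x ∉ ({x : ℕ | (a' * x) % b + d ≤ c * x} ∪ {0} : Set ℕ) →
        L * x ∉ AddSubmonoid.closure ({q', m} : Set ℕ)) := by
    intro x hx
    by_cases hxS : x ∈ ({x : ℕ | (a' * x) % b + d ≤ c * x} ∪ {0} : Set ℕ)
    · refine ⟨1, 1, one_pos, one_pos, by simp, by simp, by simp, ?_, fun h => absurd hxS h⟩
      intro g _
      rw [AddSubmonoid.mem_closure_pair]
      exact ⟨L * g, 0, by simp⟩
    · simp only [Set.mem_union, Set.mem_ofPred_eq, Set.mem_singleton_iff, not_or, not_le] at hxS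
      obtain ⟨hx1, hx0⟩ := hxS
      have hq2 : 2 * x ^ 2 + 2 * x ≤ q := by
        refine le_trans ?_ hq1
        have : x ^ 2 ≤ (b + d) ^ 2 := Nat.pow_le_pow_left hx.le 2
        omega
      obtain ⟨m, h1, h2, h3, h4, h5⟩ := Pool.Agent.Q265.Toms.core a' b c d x q L hb hab
        (Nat.pos_of_ne_zero hx0) hx1 hq hq2 hL hL1
      refine ⟨q, m, hq.pos, h1, h2, h3, (Nat.coprime_primes hL hq).2 hLq, ?_, fun _ => h5⟩
      intro g hg
      rcases Nat.eq_zero_or_pos g with h0 | h0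
      · rw [h0, mul_zero]
        exact zero_mem _
      · refine h4 g h0 ?_
        simp only [Set.mem_union, Set.mem_ofPred_eq, Set.mem_singleton_iff] at hg
        rcases hg with h | h
        · exact h
        · omega
  choose! q' m hk using key
  refine ⟨L, b + d, fun i => q' i.1, fun i => m i.1, hL.pos, by omega, ?_, ?_⟩
  · intro i
    obtain ⟨h1, h2, h3, h4, h5, -, -⟩ := hk i.1 i.2
    exact ⟨h1, h2, h3, h4, h5⟩
  · ext x
    constructor
    · intro hx i
      exact (hk i.1 i.2).2.2.2.2.2.1 x hx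
    · intro hx
      by_contra hcon
      have hlt : x < b + d := by
        simp only [Set.mem_union, Set.mem_ofPred_eq, Set.mem_singleton_iff, not_or, not_le] at hcon
        have h1 := Nat.mod_lt (a' * x) hb
        have h2 : x ≤ c * x := Nat.le_mul_of_pos_left x hc
        omega
      exact (hk x hlt).2.2.2.2.2.2 hcon (hx ⟨x, hlt⟩)

/-- **MP_94066b_nt, Q1.**  For all nonnegative integers `a, b, c` with `b ≠ 0`, no negative integer
lies in `T(a,b,c)`, and the numerical semigroup `T(a,b,c) ∪ {0}` admits a Toms decomposition. -/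
theorem result (a b c : ℕ) (hb : b ≠ 0) :
    (∀ x ∈ T a b c, 0 ≤ x) ∧ HasTomsDecomposition ({x : ℕ | (x : ℤ) ∈ T a b c} ∪ {0}) := by
  have hb0 : (0 : ℤ) < b := by exact_mod_cast Nat.pos_of_ne_zero hb
  constructor
  · intro x hx
    have h1 : ((a : ℤ) * x) % (b : ℤ) ≤ x - c := hx
    have h2 := Int.emod_nonneg ((a : ℤ) * x) hb0.ne'
    omega
  · have h := general a b 1 c (Nat.pos_of_ne_zero hb) one_pos
    have hS : ({x : ℕ | (x : ℤ) ∈ T a b c} ∪ {0} : Set ℕ) =
        {x : ℕ | (a * x) % b + c ≤ 1 * x} ∪ {0} := by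
      ext x
      simp only [Set.mem_union, Set.mem_ofPred_eq, T, one_mul]
      have e : ((a : ℤ) * x) % (b : ℤ) = (((a * x) % b : ℕ) : ℤ) := by push_cast; rfl
      rw [e]
      constructor
      · rintro (h1 | h1)
        · left; omega
        · right; exact h1
      · rintro (h1 | h1)
        · left; omega
        · right; exact h1
    rw [hS]
    exact h

end Pool.Agent.Results.MP_94066b_nt.AllTomsDecomposable
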